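import Pool.Agent.H88.Brandt.Flat

/-!
# The Brandt monoid semiring is inherently nonfinitely based

The ai-semiring `B_2^1 = {1, a, b, ab, ba, 0}` (here `B21`), with `x + y` the meet of `x` and `y` in
the natural order, is inherently nonfinitely based: no locally finite variety of algebras in the
signature `{+, ·}` which contains it can be defined by finitely many identities.

Sketch of the proof.  Let `r = 2 n + 2`.  There is an infinite word `W` over a finite alphabet such
that the letter `W (k r + t)`, `t < r`, is a function of `t` and of the letter `W k`, it determines
`t`, and two consecutive letters inside a block of length `r` determine the letter `W k` they come
from.  Let `F` be the flat algebra of the finite factors of `W`: its elements are the factors of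
`W` and `0`; a product is the concatenation if this is a factor and `0` otherwise; the sum of two
different elements is `0`.  It is infinite and generated by the letters, the empty word and `0`.
All identities of `B_2^1` in at most `n` variables hold in `F`.  The heart of the proof is the
theorem `Pool.Agent.H88.Brandt.main`: let `U` be a set of words in `n` variables, all of which are
read along `W` from `a` to `a + L` under some assignment of factors to the variables.  A colouring
of the positions by two colours such that the pairs of colours at the ends of the occurrences of a
variable form an element of `B_2^1` gives an assignment into `B_2^1`.  If a word `v` can be read
from the colour of `a` to that of `a + L` in each of these colourings, then `v` is read along `W`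
from `a` to `a + L`.  It is proved by induction: a cut `j` which no end of an occurrence meets gives
a reading of shorter words along `W`, and the colourings of the positions by windows of a block
recover the letters.
-/

namespace Pool.Agent.Results.MP_f3bb61_al.BrandtINFB

open Pool.Agent.H88.Brandt

/-- **The Brandt monoid ai-semiring is inherently nonfinitely based.** -/
theorem result : InherentlyNonfinitelyBased B21 := inherent

end Pool.Agent.Results.MP_f3bb61_al.BrandtINFB
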